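import Pool.Agent.Helper44.HD.GoalsH

/-!
# Project HD, packet TR: the trace form commutes with the coboundary
-/

set_option autoImplicit false

open Finset

namespace Pool.Agent.Helper1.HD

open Pool.Agent.Helper44.HD

/-- periodic extension -/
def ex {κ : Type} (n : ℕ) (ι : Fin (n + 1) → κ) (j : ℕ) : κ := ι (Fin.ofNat (n + 1) j)

theorem ex_lt {κ : Type} {n : ℕ} (ι : Fin (n + 1) → κ) {i : ℕ} (h : i < n + 1) :
    ex n ι i = ι ⟨i, h⟩ := by
  unfold ex
  congr 1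
  exact Fin.ext (Nat.mod_eq_of_lt h)

theorem ex_top {κ : Type} {n : ℕ} (ι : Fin (n + 1) → κ) : ex n ι (n + 1) = ι 0 := by
  unfold ex
  congr 1
  exact Fin.ext (Nat.mod_self (n + 1))

/-- insertion of `c` in place `j + 1` -/
def ins {κ : Type} {n j : ℕ} (hj : j ≤ n) (c : κ) (ι : Fin (n + 1) → κ) : Fin (n + 2) → κ :=
  Fin.insertNth (α := fun _ => κ) (⟨j + 1, by omega⟩ : Fin (n + 2)) c ι

theorem ins_lo {κ : Type} {n j : ℕ} (hj : j ≤ n) (c : κ) (ι : Fin (n + 1) → κ) {i : ℕ}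
    (hi : i ≤ j) : ex (n + 1) (ins hj c ι) i = ex n ι i := by
  have h1 : i < n + 1 := by omega
  rw [ex_lt _ (show i < n + 1 + 1 by omega), ex_lt _ h1]
  have h2 : (⟨i, by omega⟩ : Fin (n + 2)) =
      (⟨j + 1, by omega⟩ : Fin (n + 2)).succAbove (⟨i, h1⟩ : Fin (n + 1)) := by
    rw [Fin.succAbove_of_castSucc_lt]
    · rfl
    · rw [Fin.lt_def]
      change i < j + 1
      omega
  rw [h2]
  exact Fin.insertNth_apply_succAbove (α := fun _ => κ) _ _ _ _

theorem ins_mid {κ : Type} {n j : ℕ} (hj : j ≤ n) (c : κ) (ι : Fin (n + 1) → κ) :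
    ex (n + 1) (ins hj c ι) (j + 1) = c := by
  rw [ex_lt _ (show j + 1 < n + 1 + 1 by omega)]
  exact Fin.insertNth_apply_same (α := fun _ => κ) _ _ _

theorem ins_hi {κ : Type} {n j : ℕ} (hj : j ≤ n) (c : κ) (ι : Fin (n + 1) → κ) {i : ℕ}
    (hi : j + 1 ≤ i) (hi' : i ≤ n + 1) : ex (n + 1) (ins hj c ι) (i + 1) = ex n ι i := by
  rcases Nat.lt_or_ge i (n + 1) with h1 | h1
  · rw [ex_lt _ (show i + 1 < n + 1 + 1 by omega), ex_lt _ h1]
    have h2 : (⟨i + 1, by omega⟩ : Fin (n + 2)) =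
        (⟨j + 1, by omega⟩ : Fin (n + 2)).succAbove (⟨i, h1⟩ : Fin (n + 1)) := by
      rw [Fin.succAbove_of_le_castSucc]
      · rfl
      · rw [Fin.le_def]
        change j + 1 ≤ i
        omega
    rw [h2]
    exact Fin.insertNth_apply_succAbove (α := fun _ => κ) _ _ _ _
  · obtain rfl : i = n + 1 := by omega
    rw [ex_top, ex_top]
    have := ins_lo hj c ι (i := 0) (by omega)
    rw [ex_lt _ (by omega), ex_lt _ (by omega)] at this
    exact this

/-- the index function of the cyclic face -/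
def cyi {κ : Type} {n : ℕ} (c : κ) (ι : Fin (n + 1) → κ) : Fin (n + 2) → κ :=
  Fin.cons (α := fun _ => κ) c (fun i : Fin (n + 1) => ι (i + 1))

theorem cyi_zero {κ : Type} {n : ℕ} (c : κ) (ι : Fin (n + 1) → κ) :
    ex (n + 1) (cyi c ι) 0 = c := by
  rw [ex_lt _ (by omega)]
  rfl

theorem cyi_top {κ : Type} {n : ℕ} (c : κ) (ι : Fin (n + 1) → κ) :
    ex (n + 1) (cyi c ι) (n + 1 + 1) = c := by
  rw [ex_top]
  rfl

theorem cyi_succ {κ : Type} {n : ℕ} (c : κ) (ι : Fin (n + 1) → κ) {i : ℕ} (hi : i ≤ n) :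
    ex (n + 1) (cyi c ι) (i + 1) = ex n ι (i + 1) := by
  rw [ex_lt _ (show i + 1 < n + 1 + 1 by omega)]
  have h2 : (⟨i + 1, by omega⟩ : Fin (n + 2)) = Fin.succ (⟨i, by omega⟩ : Fin (n + 1)) := rfl
  rw [h2]
  unfold cyi
  rw [Fin.cons_succ]
  unfold ex
  congr 1
  apply Fin.ext
  rw [Fin.val_add]
  change (i + 1 % (n + 1)) % (n + 1) = (i + 1) % (n + 1)
  rw [Nat.add_mod_mod]

variable {k E κ : Type} [Field k] [Ring E] [Algebra k E] [Fintype κ]

theorem tc_eq (n : ℕ) (φ : (ℕ → E) → k) (x : ℕ → Matrix κ κ E) :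
    tc n φ x = ∑ ι : Fin (n + 1) → κ, φ fun j => x j (ex n ι j) (ex n ι (j + 1)) := rfl

theorem sum_ins {n j : ℕ} (hj : j ≤ n) (F : (Fin (n + 2) → κ) → k) :
    ∑ ι', F ι' = ∑ ι : Fin (n + 1) → κ, ∑ c, F (ins hj c ι) := by
  rw [Finset.sum_comm, ← Fintype.sum_prod_type' (fun c ι => F (ins hj c ι))]
  exact (Equiv.sum_comp (Fin.insertNthEquiv (fun _ : Fin (n + 2) => κ)
    (⟨j + 1, by omega⟩ : Fin (n + 2))) F).symm

theorem sum_cyi {n : ℕ} (F : (Fin (n + 2) → κ) → k) :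
    ∑ ι', F ι' = ∑ ι : Fin (n + 1) → κ, ∑ c, F (cyi c ι) := by
  rw [Finset.sum_comm]
  have h1 : ∑ ι', F ι' = ∑ c, ∑ ι : Fin (n + 1) → κ, F (Fin.cons (α := fun _ => κ) c ι) := by
    rw [← Fintype.sum_prod_type' (fun c (ι : Fin (n + 1) → κ) =>
      F (Fin.cons (α := fun _ => κ) c ι))]
    exact (Equiv.sum_comp (Fin.consEquiv (fun _ : Fin (n + 2) => κ)) F).symm
  rw [h1]
  refine sum_congr rfl fun c _ => ?_
  exact (Equiv.sum_comp ((Equiv.addRight (1 : Fin (n + 1))).symm.arrowCongr (Equiv.refl κ))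
    (fun ι => F (Fin.cons (α := fun _ => κ) c ι))).symm

theorem face_ct {n : ℕ} {φ : (ℕ → E) → k} (h : Coch k n φ) (x : ℕ → Matrix κ κ E) {j : ℕ}
    (hj : j ≤ n) : tc n φ (ct j x) = ∑ ι : Fin (n + 2) → κ,
      φ (ct j fun i => x i (ex (n + 1) ι i) (ex (n + 1) ι (i + 1))) := by
  rw [sum_ins hj, tc_eq]
  refine sum_congr rfl fun ι _ => ?_
  let B : ℕ → E := fun i => ct j x i (ex n ι i) (ex n ι (i + 1))
  have hB : φ B = φ (Function.update B j
      (∑ c, x j (ex n ι j) c * x (j + 1) c (ex n ι (j + 1)))) := by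
    congr 1
    rw [eq_comm]
    have h1 : ∑ c, x j (ex n ι j) c * x (j + 1) c (ex n ι (j + 1)) = B j := by
      simp only [B, ct, lt_irrefl, if_false, if_true, Matrix.mul_apply]
    rw [h1]
    exact Function.update_eq_self j B
  change φ B = _
  rw [hB, h.update_sum _ _ hj]
  refine sum_congr rfl fun c _ => ?_
  refine h.dep _ _ fun i hi => ?_
  rcases lt_trichotomy i j with hij | hij | hij
  · rw [Function.update_of_ne hij.ne]
    simp only [B, ct, hij, if_true]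
    rw [ins_lo hj c ι hij.le, ins_lo hj c ι (show i + 1 ≤ j by omega)]
  · subst hij
    rw [Function.update_self]
    simp only [ct, lt_irrefl, if_false, if_true]
    rw [ins_lo hj c ι le_rfl, ins_mid hj c ι, ins_hi hj c ι (i := i + 1) le_rfl (by omega)]
  · rw [Function.update_of_ne hij.ne']
    have h2 : ¬ i < j := by omega
    have h3 : ¬ i = j := by omega
    simp only [B, ct, h2, h3, if_false]
    rw [ins_hi hj c ι (i := i) (by omega) (by omega),
      ins_hi hj c ι (i := i + 1) (by omega) (by omega)]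

theorem face_cy {n : ℕ} {φ : (ℕ → E) → k} (h : Coch k n φ) (x : ℕ → Matrix κ κ E) :
    tc n φ (cy (n + 1) x) = ∑ ι : Fin (n + 2) → κ,
      φ (cy (n + 1) fun i => x i (ex (n + 1) ι i) (ex (n + 1) ι (i + 1))) := by
  rw [sum_cyi, tc_eq]
  refine sum_congr rfl fun ι _ => ?_
  let B : ℕ → E := fun i => cy (n + 1) x i (ex n ι i) (ex n ι (i + 1))
  have hB : φ B = φ (Function.update B 0
      (∑ c, x (n + 1) (ex n ι 0) c * x 0 c (ex n ι (0 + 1)))) := by
    congr 1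
    rw [eq_comm]
    have h1 : ∑ c, x (n + 1) (ex n ι 0) c * x 0 c (ex n ι (0 + 1)) = B 0 := by
      simp only [B, cy, if_true, Matrix.mul_apply]
    rw [h1]
    exact Function.update_eq_self 0 B
  change φ B = _
  rw [hB, h.update_sum _ _ (Nat.zero_le n)]
  refine sum_congr rfl fun c _ => ?_
  refine h.dep _ _ fun i hi => ?_
  rcases Nat.eq_zero_or_pos i with hi0 | hi0
  · subst hi0
    rw [Function.update_self]
    simp only [cy, if_true]
    rw [cyi_zero, cyi_top, cyi_succ c ι (i := n) le_rfl, cyi_succ c ι (i := 0) (Nat.zero_le n)]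
    rw [ex_top, ex_lt _ (show 0 < n + 1 by omega)]
    rfl
  · rw [Function.update_of_ne (by omega)]
    have h3 : ¬ i = 0 := by omega
    simp only [B, cy, h3, if_false]
    obtain ⟨l, rfl⟩ : ∃ l, i = l + 1 := ⟨i - 1, by omega⟩
    rw [cyi_succ c ι (i := l) (by omega), cyi_succ c ι (i := l + 1) hi]

theorem tr : StmtTR := by
  intro k E κ _ _ _ _ n φ hφ
  refine ⟨?_, fun x => ?_⟩
  · refine Coch.sumc (k := k) (A := Matrix κ κ E) Finset.univ
      (fun (ι : Fin (n + 1) → κ) (x : ℕ → Matrix κ κ E) =>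
        φ fun j => x j (ι (Fin.ofNat (n + 1) j)) (ι (Fin.ofNat (n + 1) (j + 1)))) ?_
    intro ι _
    exact hφ.comp (fun j (M : Matrix κ κ E) => M (ι (Fin.ofNat (n + 1) j))
      (ι (Fin.ofNat (n + 1) (j + 1)))) (fun i a b => rfl) (fun i c a => rfl)
  · rw [tc_eq]
    simp only [dl]
    rw [sum_add_distrib, ← mul_sum, ← face_cy hφ x]
    congr 1
    rw [sum_comm]
    refine sum_congr rfl fun j hj => ?_
    rw [← mul_sum, ← face_ct hφ x (by simpa [Nat.lt_succ_iff] using hj)]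

end Pool.Agent.Helper1.HD
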